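import Pool.Agent.W61.WH.PHI2d

/-!
# Project WH, subtask PHI2: the double integral
-/

open MeasureTheory

namespace Pool.Agent.W61.WH

open Pool.Agent.W181.WH

/-- the measure in `t` -/
noncomputable def nT (m : ℕ) : Measure (Fin m → ℝ) :=
  (volume.restrict (orth m)).withDensity
    (fun t => ENNReal.ofReal (∏ i : Fin m, t i ^ (2 * (i : ℕ))))

theorem wL_eq (m : ℕ) : wL m = (nT m).prod volume := rfl

instance (m : ℕ) : SFinite (nT m) := by
  unfold nT
  infer_instance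

theorem meas_dens (m : ℕ) :
    Measurable (fun t : Fin m → ℝ => ENNReal.ofReal (∏ i : Fin m, t i ^ (2 * (i : ℕ)))) := by
  refine ENNReal.measurable_ofReal.comp ?_
  refine Finset.measurable_prod _ ?_
  intro i _
  exact (measurable_pi_apply i).pow_const _

theorem orth_eq (m : ℕ) : orth m = Set.univ.pi (fun _ : Fin m => Set.Ioi (0 : ℝ)) := by
  ext t
  simp [orth]

theorem meas_orth (m : ℕ) : MeasurableSet (orth m) := by
  rw [orth_eq]
  exact MeasurableSet.univ_pi (fun _ => measurableSet_Ioi)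

theorem ae_nT (m : ℕ) : ∀ᵐ t ∂(nT m), ∀ i, 0 < t i := by
  unfold nT
  refine (withDensity_absolutelyContinuous _ _).ae_le ?_
  exact ae_restrict_mem (meas_orth m)

theorem ae_wL (m : ℕ) : ∀ᵐ q ∂(wL m), ∀ i, 0 < q.1 i := by
  rw [wL_eq]
  exact Measure.quasiMeasurePreserving_fst.ae (ae_nT m)

theorem int_nT {m : ℕ} {E : Type*} [NormedAddCommGroup E] [NormedSpace ℝ E]
    (g : (Fin m → ℝ) → E) :
    (Integrable g (nT m) ↔
      IntegrableOn (fun t => (∏ i : Fin m, t i ^ (2 * (i : ℕ))) • g t) (orth m)) ∧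
    ∫ t, g t ∂(nT m) = ∫ t in orth m, (∏ i : Fin m, t i ^ (2 * (i : ℕ))) • g t := by
  have h0 : (fun t : Fin m → ℝ => (ENNReal.ofReal (∏ i : Fin m, t i ^ (2 * (i : ℕ)))).toReal • g t)
      = fun t => (∏ i : Fin m, t i ^ (2 * (i : ℕ))) • g t := by
    funext t
    rw [ENNReal.toReal_ofReal]
    refine Finset.prod_nonneg ?_
    intro i _
    rw [pow_mul]
    positivity
  constructor
  · unfold nT
    rw [integrable_withDensity_iff_integrable_smul' (meas_dens m)
      (Filter.Eventually.of_forall (fun _ => ENNReal.ofReal_lt_top)), h0]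
    rfl
  · unfold nT
    rw [integral_withDensity_eq_integral_toReal_smul (meas_dens m)
      (Filter.Eventually.of_forall (fun _ => ENNReal.ofReal_lt_top)), h0]

theorem int_last {m : ℕ} (e b : Fin m → ℝ) (he : ∀ i, -1 < e i) (hb : ∀ i, 0 < b i) :
    IntegrableOn (fun t : Fin m → ℝ => ∏ i, (t i ^ (e i) * Real.exp (-(b i) * t i ^ 2)))
      (orth m) := by
  unfold IntegrableOn
  rw [orth_eq, volume_pi, Measure.restrict_pi_pi]
  exact Integrable.fintype_prod (f := fun i s => s ^ (e i) * Real.exp (-(b i) * s ^ 2))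
    (fun i => integrableOn_rpow_mul_exp_neg_mul_sq (hb i) (he i))

section

variable {m : ℕ}

theorem JnI_norm (hS : S_SCAL) (μ : Fin m → ℂ) (hJ : ∀ x, Integrable (JnI μ x))
    (x : Fin (m + 1) → ℝ) :
    ∫ v, ‖JnI μ x v‖ = Real.exp (EE μ x) * ∫ v, ‖JnI μ (fun _ => 0) v‖ := by
  rw [integral_norm_eq_lintegral_enorm (hJ x).aestronglyMeasurable,
    integral_norm_eq_lintegral_enorm (hJ _).aestronglyMeasurable, hS m μ x,
    ENNReal.toReal_mul, ENNReal.toReal_ofReal (Real.exp_pos _).le]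
  rfl

/-- the integrable majorant in `t` -/
theorem H_int (hS : S_SCAL) (μ : Fin (m + 1) → ℂ) (hμ : ∀ k, 1 < (μ k).re)
    (hJ : ∀ x, Integrable (JnI (tl μ) x)) (x : Fin (m + 2) → ℝ) :
    Integrable (fun t : Fin (m + 1) → ℝ =>
      ((∏ i, (t i) ^ ((∑ k, μ k).re - (m + 1))) *
        ∫ v, ‖JnI (tl μ) (fun i => Real.log (t (Fin.rev i))) v‖) *
      (Z0 (Real.exp (2 * x 0)) t * W0 (fun i => x i.succ) t)) (nT (m + 1)) := by
  rw [(int_nT _).1]
  have h1 := (int_last (fun i => ex μ i) (fun i : Fin (m + 1) => Real.pi * Real.exp (2 * x i.succ))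
    (ex_gt μ hμ) (fun i => by positivity)).const_mul
    (Real.exp (-((m : ℝ) + 1) * x 0 - ∑ i : Fin (m + 1), ((m : ℝ) - ((i : ℕ) : ℝ)) * x i.succ) *
      ∫ v, ‖JnI (tl μ) (fun _ => 0) v‖)
  refine IntegrableOn.congr_fun h1 ?_ (meas_orth _)
  intro t ht
  have ht2 : t = fun i => Real.exp (Real.log (t i)) := by
    funext i
    rw [Real.exp_log (ht i)]
  simp only [smul_eq_mul]
  rw [JnI_norm hS (tl μ) hJ (fun i => Real.log (t (Fin.rev i)))]
  have h2 := abs_formula μ x (fun i => Real.log (t i))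
  simp only [← ht2] at h2
  have h3 : ∀ i, Real.exp (Real.log (t i)) = t i := fun i => Real.exp_log (ht i)
  simp only [h3] at h2
  linear_combination (-(∫ v, ‖JnI (tl μ) (fun _ => 0) v‖)) * h2

end

section

variable {m : ℕ}
  (hU : ∀ u v : LIdx (m + 1) → ℝ, lM (mulC u v) = lM u * lM v ∧ ch (mulC u v) = ch u * ch v)
  (hP : ∀ u : LIdx (m + 1) → ℝ, MeasurePreserving (fun v => mulC u v) volume volume)
  (hZ : S_ZINT) (hW : S_WINT) (hF : S_FLIP) (hS : S_SCAL)
  (μ : Fin (m + 1) → ℂ) (hμ : ∀ k, 1 < (μ k).re)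
  (hJ : ∀ x, Integrable (JnI (tl μ) x)) (x : Fin (m + 2) → ℝ)

include hU hP hZ hW hF hS hμ hJ

theorem Phi_int :
    Integrable (fun r : ((Fin (m + 1) → ℝ) × (LIdx (m + 1) → ℝ)) ×
        ((Fin (m + 1) → ℝ) × (LIdx (m + 1) → ℝ)) => Phi μ x (ML r.1) r.2)
      ((wL (m + 1)).prod (volume.prod volume)) := by
  have hsf : SFinite (wL (m + 1)) := by
    rw [wL_eq]
    infer_instance
  have hm := (measurable_Phi μ x).aestronglyMeasurable
    (μ := (wL (m + 1)).prod ((volume : Measure (Fin (m + 1) → ℝ)).prod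
      (volume : Measure (LIdx (m + 1) → ℝ))))
  rw [integrable_prod_iff hm]
  refine ⟨?_, ?_⟩
  · filter_upwards [ae_wL (m + 1)] with q hq
    exact (inner hU hP hZ hW μ x q.1 hq q.2).1
  · have hm2 := hm.norm.integral_prod_right'
    simp only at hm2
    rw [wL_eq] at hm2 ⊢
    rw [integrable_prod_iff hm2]
    refine ⟨?_, ?_⟩
    · filter_upwards [ae_nT (m + 1)] with t ht
      have h1 : (fun w : LIdx (m + 1) → ℝ => ∫ zv, ‖Phi μ x (ML (t, w)) zv‖
          ∂((volume : Measure (Fin (m + 1) → ℝ)).prod (volume : Measure (LIdx (m + 1) → ℝ)))) =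
          fun w => ‖AA μ (ML (t, w)) * (starRingEnd ℂ) (ch w)‖ *
            (Z0 (Real.exp (2 * x 0)) t * W0 (fun i => x i.succ) t) := by
        funext w
        rw [(inner hU hP hZ hW μ x t ht w).2.2, norm_mul, RCLike.norm_conj, norm_ch, mul_one]
      rw [h1]
      have h2 := (hF m μ t ht).1 (hJ _)
      exact h2.norm.mul_const _
    · refine (H_int hS μ hμ hJ x).congr ?_
      filter_upwards [ae_nT (m + 1)] with t ht
      have h1 : (fun w : LIdx (m + 1) → ℝ => ‖∫ zv, ‖Phi μ x (ML (t, w)) zv‖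
          ∂((volume : Measure (Fin (m + 1) → ℝ)).prod (volume : Measure (LIdx (m + 1) → ℝ)))‖) =
          fun w => ‖AA μ (ML (t, w))‖ *
            (Z0 (Real.exp (2 * x 0)) t * W0 (fun i => x i.succ) t) := by
        funext w
        rw [Real.norm_of_nonneg (integral_nonneg (fun _ => norm_nonneg _)),
          (inner hU hP hZ hW μ x t ht w).2.2]
      rw [h1, integral_mul_const]
      congr 1
      exact ((hF m μ t ht).2.2).symm

theorem Phi_val (hCV : S_CV) :
    ∫ r, Phi μ x (ML r.1) r.2 ∂((wL (m + 1)).prod (volume.prod volume)) = Rec μ x := by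
  have hsf : SFinite (wL (m + 1)) := by
    rw [wL_eq]
    infer_instance
  have hI := Phi_int hU hP hZ hW hF hS μ hμ hJ x
  rw [integral_prod _ hI]
  have hI2 := hI.integral_prod_left
  simp only at hI2
  rw [wL_eq] at hI2 ⊢
  rw [integral_prod _ hI2]
  have h1 : ∀ᵐ t ∂(nT (m + 1)), (∫ w : LIdx (m + 1) → ℝ, ∫ zv, Phi μ x (ML (t, w)) zv
        ∂((volume : Measure (Fin (m + 1) → ℝ)).prod (volume : Measure (LIdx (m + 1) → ℝ)))) =
      ((∏ i, ((t i : ℝ) : ℂ) ^ (∑ k, μ k - ((m + 1 : ℕ) : ℂ))) *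
        Jn m (tl μ) (fun i => Real.log (t (Fin.rev i)))) *
        ((Zc (Real.exp (2 * x 0)) t * Wc (fun i => x i.succ) t : ℝ) : ℂ) := by
    filter_upwards [ae_nT (m + 1)] with t ht
    have h2 : (fun w : LIdx (m + 1) → ℝ => ∫ zv, Phi μ x (ML (t, w)) zv
          ∂((volume : Measure (Fin (m + 1) → ℝ)).prod (volume : Measure (LIdx (m + 1) → ℝ)))) =
          fun w => (AA μ (ML (t, w)) * (starRingEnd ℂ) (ch w)) *
            ((Zc (Real.exp (2 * x 0)) t * Wc (fun i => x i.succ) t : ℝ) : ℂ) := by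
      funext w
      exact (inner hU hP hZ hW μ x t ht w).2.1
    rw [h2, integral_mul_const]
    congr 1
    exact (hF m μ t ht).2.1
  rw [integral_congr_ae h1, (int_nT _).2]
  have h3 := (hCV (m + 1) (fun t => (∏ i : Fin (m + 1), t i ^ (2 * (i : ℕ))) •
    (((∏ i, ((t i : ℝ) : ℂ) ^ (∑ k, μ k - ((m + 1 : ℕ) : ℂ))) *
        Jn m (tl μ) (fun i => Real.log (t (Fin.rev i)))) *
        ((Zc (Real.exp (2 * x 0)) t * Wc (fun i => x i.succ) t : ℝ) : ℂ)))).2
  refine Eq.trans h3 ?_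
  rw [← integral_neg_eq_self]
  unfold Rec
  rw [← integral_const_mul]
  congr 1
  funext τ
  have h4 := real_formula x (fun i => -τ i)
  have h5 : (∏ i : Fin (m + 1), ((Real.exp (-τ i) : ℝ) : ℂ) ^ (∑ k, μ k - ((m + 1 : ℕ) : ℂ))) *
      ((Real.exp (∑ i : Fin (m + 1), ((i : ℕ) : ℝ) * (-τ i)) : ℝ) : ℂ) =
      ∏ i : Fin (m + 1), Complex.exp (-(((i : ℕ) : ℂ) + ∑ k, μ k - ((m + 1 : ℕ) : ℂ)) *
        (τ i : ℂ)) := by
    rw [Real.exp_sum, Complex.ofReal_prod, ← Finset.prod_mul_distrib]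
    refine Finset.prod_congr rfl ?_
    intro i _
    rw [Complex.cpow_def_of_ne_zero (by
      rw [Complex.ofReal_ne_zero]; exact (Real.exp_pos _).ne'), ← Complex.ofReal_log
      (Real.exp_pos _).le, Real.log_exp, Complex.ofReal_exp, ← Complex.exp_add]
    congr 1
    push_cast
    ring
  have h6 : (fun i : Fin (m + 1) => Real.log (Real.exp ((-τ) (Fin.rev i)))) =
      fun i => -τ (Fin.rev i) := by
    funext i
    rw [Real.log_exp]
    rfl
  have h7 : ∀ i, (-τ) i = -τ i := fun i => rfl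
  rw [h6]
  simp only [h7]
  have h4' := congrArg (fun a : ℝ => (a : ℂ)) h4
  have h8 : (Real.exp (-Real.pi * ∑ i : Fin (m + 1),
        (Real.exp (2 * (x i.succ + -τ i)) + Real.exp (2 * (- -τ i - x i.castSucc))))) =
      Real.exp (-Real.pi * ∑ i : Fin (m + 1),
        (Real.exp (2 * (x i.succ - τ i)) + Real.exp (2 * (τ i - x i.castSucc)))) := by
    congr 2
    refine Finset.sum_congr rfl ?_
    intro i _
    rw [neg_neg, ← sub_eq_add_neg]
  rw [h8] at h4'
  rw [← h5]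
  rw [Complex.real_smul]
  push_cast at h4' ⊢
  linear_combination ((∏ i : Fin (m + 1), (Complex.exp (-(τ i : ℂ))) ^ (∑ k, μ k - ((m : ℂ) + 1))) *
    Jn m (tl μ) (fun i => -τ (Fin.rev i))) * h4'

end

theorem t_phi2 : S_UNI → S_CHOL → S_ZINT → S_WINT → S_FLIP → S_SCAL → S_CV → S_PHI2 := by
  intro hUNI _ hZ hW hF hS hCV m μ hμ hJ x
  obtain ⟨hU, _, _, hP, _, _⟩ := hUNI (m + 1)
  exact ⟨Phi_int hU hP hZ hW hF hS μ hμ hJ x, Phi_val hU hP hZ hW hF hS μ hμ hJ x hCV⟩

end Pool.Agent.W61.WH
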