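import Pool.Agent.W181.WH.Stm

/-!
# Project WH, subtask PHI2, part a: factorisation and measurability
-/

open MeasureTheory

namespace Pool.Agent.W61.WH

open Pool.Agent.W181.WH

theorem continuous_lM {n : ℕ} : Continuous (fun v : LIdx n → ℝ => lM v) := by
  refine continuous_matrix ?_
  intro i j
  unfold lM
  by_cases h : j < i
  · simp only [h, dif_pos]
    exact continuous_apply _
  · simp only [h, dif_neg, not_false_eq_true]
    exact continuous_const

theorem continuous_ML {n : ℕ} :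
    Continuous (fun q : (Fin n → ℝ) × (LIdx n → ℝ) => ML q) := by
  unfold ML
  have h1 : Continuous (fun q : (Fin n → ℝ) × (LIdx n → ℝ) => lM q.2) :=
    continuous_lM.comp continuous_snd
  have h2 : Continuous (fun q : (Fin n → ℝ) × (LIdx n → ℝ) =>
      Matrix.diagonal (fun i => q.1 i ^ 2)) := by
    refine Continuous.matrix_diagonal ?_
    fun_prop
  exact (h1.matrix_transpose.matrix_mul h2).matrix_mul h1

theorem continuous_PZ {m : ℕ} (x : Fin (m + 1) → ℝ) :
    Continuous (fun zv : (Fin m → ℝ) × (LIdx m → ℝ) => PZ x zv.1 zv.2) := by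
  unfold PZ
  have h1 : Continuous (fun q : (Fin m → ℝ) × (LIdx m → ℝ) => lM q.2) :=
    continuous_lM.comp continuous_snd
  have h2 : Continuous (fun _ : (Fin m → ℝ) × (LIdx m → ℝ) => Dg (fun i => x i.succ)) :=
    continuous_const
  have h3 : Continuous (fun q : (Fin m → ℝ) × (LIdx m → ℝ) =>
      lM q.2 * Dg (fun i => x i.succ) * (lM q.2).transpose) :=
    (h1.matrix_mul h2).matrix_mul h1.matrix_transpose
  refine h3.add ?_
  refine continuous_matrix ?_
  intro i j
  simp only [Matrix.smul_apply, Matrix.vecMulVec_apply]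
  fun_prop

theorem continuous_Um {n : ℕ} (k : Fin n) :
    Continuous (fun P : Matrix (Fin n) (Fin n) ℝ => Um P k) := by
  unfold Um
  refine Continuous.matrix_det ?_
  exact Continuous.matrix_submatrix continuous_id _ _

theorem continuous_ch {n : ℕ} : Continuous (fun v : LIdx n → ℝ => ch v) := by
  unfold ch
  refine Complex.continuous_exp.comp ?_
  refine continuous_const.mul ?_
  refine Complex.continuous_ofReal.comp ?_
  refine continuous_finsetSum _ ?_
  intro p _
  split_ifs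
  · exact continuous_apply _
  · exact continuous_const

theorem norm_ch {n : ℕ} (v : LIdx n → ℝ) : ‖ch v‖ = 1 := by
  unfold ch
  rw [Complex.norm_exp]
  simp

theorem conj_ch_mul {n : ℕ} (v : LIdx n → ℝ) : (starRingEnd ℂ) (ch v) * ch v = 1 := by
  rw [mul_comm, Complex.mul_conj, Complex.normSq_eq_norm_sq, norm_ch]
  simp

/-- the factor of the integrand which only depends on the matrix -/
noncomputable def AA {m : ℕ} (μ : Fin m → ℂ) (P : Matrix (Fin m) (Fin m) ℝ) : ℂ :=
  ∏ j, ((Um P j : ℝ) : ℂ) ^ (be μ j)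

theorem measurable_AA {m : ℕ} (μ : Fin m → ℂ) :
    Measurable (fun q : (Fin m → ℝ) × (LIdx m → ℝ) => AA μ (ML q)) := by
  unfold AA
  refine Finset.measurable_prod _ ?_
  intro j _
  refine Measurable.pow_const ?_ _
  exact (Complex.continuous_ofReal.comp ((continuous_Um j).comp continuous_ML)).measurable

theorem measurable_Phi {m : ℕ} (μ : Fin (m + 1) → ℂ) (x : Fin (m + 2) → ℝ) :
    Measurable (fun r : ((Fin (m + 1) → ℝ) × (LIdx (m + 1) → ℝ)) ×
        ((Fin (m + 1) → ℝ) × (LIdx (m + 1) → ℝ)) => Phi μ x (ML r.1) r.2) := by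
  unfold Phi
  refine Measurable.mul (Measurable.mul ?_ ?_) ?_
  · refine Continuous.measurable ?_
    refine Complex.continuous_ofReal.comp (Real.continuous_exp.comp ?_)
    refine continuous_const.mul (Continuous.matrix_trace ?_)
    exact (continuous_ML.comp continuous_fst).matrix_mul ((continuous_PZ x).comp continuous_snd)
  · exact (measurable_AA μ).comp measurable_fst
  · refine Continuous.measurable ?_
    refine Continuous.mul ?_ (continuous_ch.comp (continuous_snd.comp continuous_snd))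
    refine Complex.continuous_exp.comp (continuous_const.mul (Complex.continuous_ofReal.comp ?_))
    exact (continuous_apply 0).comp (continuous_fst.comp continuous_snd)

/-- the trace of the product -/
theorem trace_eq {m : ℕ} (hU : ∀ u v : LIdx m → ℝ, lM (mulC u v) = lM u * lM v)
    (x : Fin (m + 1) → ℝ) (t : Fin m → ℝ) (w : LIdx m → ℝ) (z : Fin m → ℝ) (v : LIdx m → ℝ) :
    (ML (t, w) * PZ x z v).trace =
      (ML (t, mulC w v) * Dg (fun i => x i.succ)).trace +
        Real.exp (2 * x 0) * ∑ i, (t i * (lM w).mulVec z i) ^ 2 := by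
  unfold PZ
  rw [Matrix.mul_add, Matrix.trace_add]
  have h1 : (ML (t, w) * (lM v * Dg (fun i => x i.succ) * (lM v).transpose)).trace =
      (ML (t, mulC w v) * Dg (fun i => x i.succ)).trace := by
    unfold ML
    simp only
    rw [hU, Matrix.transpose_mul]
    rw [← Matrix.mul_assoc, Matrix.trace_mul_comm]
    simp only [Matrix.mul_assoc]
  have h2 : (ML (t, w) * (Real.exp (2 * x 0) • Matrix.vecMulVec z z)).trace =
      Real.exp (2 * x 0) * ∑ i, (t i * (lM w).mulVec z i) ^ 2 := by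
    rw [Matrix.mul_smul, Matrix.trace_smul, smul_eq_mul]
    congr 1
    unfold ML
    simp only
    rw [Matrix.mul_vecMulVec, Matrix.trace_vecMulVec]
    rw [← Matrix.mulVec_mulVec, ← Matrix.mulVec_mulVec]
    rw [dotProduct_comm, Matrix.dotProduct_mulVec, Matrix.vecMul_transpose]
    unfold dotProduct
    refine Finset.sum_congr rfl ?_
    intro i _
    rw [Matrix.mulVec_diagonal]
    ring
  rw [h1, h2]

/-- the Gaussian in `z` -/
noncomputable def Zf {m : ℕ} (D : ℝ) (t : Fin (m + 1) → ℝ) (w : LIdx (m + 1) → ℝ)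
    (z : Fin (m + 1) → ℝ) : ℝ :=
  Real.exp (-Real.pi * (D * ∑ i, (t i * (lM w).mulVec z i) ^ 2))

/-- the Gaussian in `w` -/
noncomputable def Wf {m : ℕ} (x t : Fin m → ℝ) (w : LIdx m → ℝ) : ℝ :=
  Real.exp (-Real.pi * (ML (t, w) * Dg x).trace)

theorem Phi_eq {m : ℕ}
    (hU : ∀ u v : LIdx (m + 1) → ℝ, lM (mulC u v) = lM u * lM v ∧ ch (mulC u v) = ch u * ch v)
    (μ : Fin (m + 1) → ℂ) (x : Fin (m + 2) → ℝ) (t : Fin (m + 1) → ℝ) (w : LIdx (m + 1) → ℝ)
    (z : Fin (m + 1) → ℝ) (v : LIdx (m + 1) → ℝ) :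
    Phi μ x (ML (t, w)) (z, v) =
      (AA μ (ML (t, w)) * (starRingEnd ℂ) (ch w)) *
      ((((Zf (Real.exp (2 * x 0)) t w z : ℝ) : ℂ) *
        Complex.exp (-(2 * Real.pi * Complex.I) * (z 0 : ℂ))) *
      (((Wf (fun i => x i.succ) t (mulC w v) : ℝ) : ℂ) * ch (mulC w v))) := by
  unfold Phi
  simp only
  rw [trace_eq (fun u v => (hU u v).1), mul_add, Real.exp_add, Complex.ofReal_mul, (hU w v).2]
  have h := conj_ch_mul w
  have h3 : (∏ j, ((Um (ML (t, w)) j : ℝ) : ℂ) ^ (be μ j)) = AA μ (ML (t, w)) := rfl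
  rw [h3]
  unfold Zf Wf
  linear_combination (-((Real.exp (-Real.pi * (ML (t, mulC w v) *
    Dg (fun i => x i.succ)).trace) : ℝ) : ℂ) * ((Real.exp (-Real.pi * (Real.exp (2 * x 0) *
      ∑ i, (t i * (lM w).mulVec z i) ^ 2)) : ℝ) : ℂ) * AA μ (ML (t, w)) *
    Complex.exp (-(2 * Real.pi * Complex.I) * (z 0 : ℂ)) * ch v) * h

theorem norm_Phi {m : ℕ}
    (hU : ∀ u v : LIdx (m + 1) → ℝ, lM (mulC u v) = lM u * lM v ∧ ch (mulC u v) = ch u * ch v)
    (μ : Fin (m + 1) → ℂ) (x : Fin (m + 2) → ℝ) (t : Fin (m + 1) → ℝ) (w : LIdx (m + 1) → ℝ)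
    (z : Fin (m + 1) → ℝ) (v : LIdx (m + 1) → ℝ) :
    ‖Phi μ x (ML (t, w)) (z, v)‖ =
      ‖AA μ (ML (t, w))‖ * (Zf (Real.exp (2 * x 0)) t w z *
        Wf (fun i => x i.succ) t (mulC w v)) := by
  rw [Phi_eq hU]
  simp only [norm_mul]
  have h1 : ‖(starRingEnd ℂ) (ch w)‖ = 1 := by rw [RCLike.norm_conj, norm_ch]
  have h2 : ‖Complex.exp (-(2 * Real.pi * Complex.I) * (z 0 : ℂ))‖ = 1 := by
    rw [Complex.norm_exp]
    simp
  rw [h1, h2, norm_ch, Complex.norm_real, Complex.norm_real, Real.norm_eq_abs, Real.norm_eq_abs]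
  unfold Zf Wf
  rw [abs_of_pos (Real.exp_pos _), abs_of_pos (Real.exp_pos _)]
  ring

end Pool.Agent.W61.WH
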