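import Pool.Agent.W61.WH.PHI2a

/-!
# Project WH, subtask PHI2, part b: the inner integrals
-/

open MeasureTheory

namespace Pool.Agent.W61.WH

open Pool.Agent.W181.WH

noncomputable def Z0 {m : ℕ} (D : ℝ) (t : Fin (m + 1) → ℝ) : ℝ := ∏ i, (t i * Real.sqrt D)⁻¹

noncomputable def Zc {m : ℕ} (D : ℝ) (t : Fin (m + 1) → ℝ) : ℝ :=
  (∏ i, (t i * Real.sqrt D)⁻¹) * Real.exp (-Real.pi / (t 0 ^ 2 * D))

noncomputable def W0 {m : ℕ} (x t : Fin m → ℝ) : ℝ :=
  (∏ i, Real.exp (-Real.pi * (t i ^ 2 * Real.exp (2 * x i)))) *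
    ∏ p : LIdx m, (t p.1.1 * Real.exp (x p.1.2))⁻¹

noncomputable def Wc {m : ℕ} (x t : Fin m → ℝ) : ℝ :=
  (∏ i, Real.exp (-Real.pi * (t i ^ 2 * Real.exp (2 * x i)))) *
    ∏ p : LIdx m, (t p.1.1 * Real.exp (x p.1.2))⁻¹ *
      (if (p.1.1 : ℕ) = (p.1.2 : ℕ) + 1 then
        Real.exp (-Real.pi / (t p.1.1 ^ 2 * Real.exp (2 * x p.1.2))) else 1)

theorem comp_integral {X : Type*} [MeasureSpace X] {E : Type*} [NormedAddCommGroup E]
    [NormedSpace ℝ E] {φ : X → X} (hφ : MeasurePreserving φ volume volume)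
    {G : X → E} (hG : Integrable G) :
    Integrable (fun v => G (φ v)) ∧ ∫ v, G (φ v) = ∫ v, G v := by
  have h1 : Integrable G (Measure.map φ volume) := by rw [hφ.map_eq]; exact hG
  refine ⟨h1.comp_measurable hφ.measurable, ?_⟩
  rw [← integral_map hφ.measurable.aemeasurable h1.aestronglyMeasurable, hφ.map_eq]

section

variable {m : ℕ}
  (hU : ∀ u v : LIdx (m + 1) → ℝ, lM (mulC u v) = lM u * lM v ∧ ch (mulC u v) = ch u * ch v)
  (hP : ∀ u : LIdx (m + 1) → ℝ, MeasurePreserving (fun v => mulC u v) volume volume)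
  (hZ : S_ZINT) (hW : S_WINT)

include hU hP hZ hW

theorem inner (μ : Fin (m + 1) → ℂ) (x : Fin (m + 2) → ℝ) (t : Fin (m + 1) → ℝ)
    (ht : ∀ i, 0 < t i) (w : LIdx (m + 1) → ℝ) :
    Integrable (fun zv : (Fin (m + 1) → ℝ) × (LIdx (m + 1) → ℝ) => Phi μ x (ML (t, w)) zv)
      (volume.prod volume) ∧
    ∫ zv, Phi μ x (ML (t, w)) zv ∂(volume.prod volume) =
      (AA μ (ML (t, w)) * (starRingEnd ℂ) (ch w)) *
        ((Zc (Real.exp (2 * x 0)) t * Wc (fun i => x i.succ) t : ℝ) : ℂ) ∧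
    ∫ zv, ‖Phi μ x (ML (t, w)) zv‖ ∂(volume.prod volume) =
      ‖AA μ (ML (t, w))‖ *
        (Z0 (Real.exp (2 * x 0)) t * W0 (fun i => x i.succ) t) := by
  obtain ⟨z1, z2, z3⟩ := hZ m (Real.exp (2 * x 0)) t w (Real.exp_pos _) ht
  obtain ⟨w1, w2, w3⟩ := hW (m + 1) t (fun i => x i.succ) ht
  have hcomp1 := comp_integral (hP w) w1
  have hGi : Integrable (fun w' : LIdx (m + 1) → ℝ =>
      ((Wf (fun i => x i.succ) t w' : ℝ) : ℂ) * ch w') := by
    refine (w1.ofReal (𝕜 := ℂ)).mul_bdd (c := 1) continuous_ch.aestronglyMeasurable ?_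
    refine Filter.Eventually.of_forall ?_
    intro v
    rw [norm_ch]
  have hcomp2 := comp_integral (hP w) hGi
  have hZi : Integrable (fun z : Fin (m + 1) → ℝ =>
      ((Zf (Real.exp (2 * x 0)) t w z : ℝ) : ℂ) *
        Complex.exp (-(2 * Real.pi * Complex.I) * (z 0 : ℂ))) := by
    refine (z1.ofReal (𝕜 := ℂ)).mul_bdd (c := 1) ?_ ?_
    · refine Continuous.aestronglyMeasurable ?_
      refine Complex.continuous_exp.comp (continuous_const.mul (Complex.continuous_ofReal.comp ?_))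
      exact continuous_apply 0
    · refine Filter.Eventually.of_forall ?_
      intro v
      rw [Complex.norm_exp]
      simp
  have hfun : (fun zv : (Fin (m + 1) → ℝ) × (LIdx (m + 1) → ℝ) => Phi μ x (ML (t, w)) zv) =
      fun zv => (AA μ (ML (t, w)) * (starRingEnd ℂ) (ch w)) *
        ((((Zf (Real.exp (2 * x 0)) t w zv.1 : ℝ) : ℂ) *
          Complex.exp (-(2 * Real.pi * Complex.I) * (zv.1 0 : ℂ))) *
        (((Wf (fun i => x i.succ) t (mulC w zv.2) : ℝ) : ℂ) * ch (mulC w zv.2))) := by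
    funext zv
    exact Phi_eq hU μ x t w zv.1 zv.2
  have hnorm : (fun zv : (Fin (m + 1) → ℝ) × (LIdx (m + 1) → ℝ) => ‖Phi μ x (ML (t, w)) zv‖) =
      fun zv => ‖AA μ (ML (t, w))‖ * (Zf (Real.exp (2 * x 0)) t w zv.1 *
        Wf (fun i => x i.succ) t (mulC w zv.2)) := by
    funext zv
    exact norm_Phi hU μ x t w zv.1 zv.2
  refine ⟨?_, ?_, ?_⟩
  · rw [hfun]
    exact (hZi.mul_prod hcomp2.1).const_mul _
  · rw [hfun, integral_const_mul, integral_prod_mul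
      (fun z : Fin (m + 1) → ℝ => ((Zf (Real.exp (2 * x 0)) t w z : ℝ) : ℂ) *
        Complex.exp (-(2 * Real.pi * Complex.I) * (z 0 : ℂ)))
      (fun v : LIdx (m + 1) → ℝ =>
        ((Wf (fun i => x i.succ) t (mulC w v) : ℝ) : ℂ) * ch (mulC w v)), hcomp2.2]
    unfold Zf Wf
    rw [z3, w3]
    unfold Zc Wc
    congr 1
    push_cast
    ring
  · rw [hnorm, integral_const_mul, integral_prod_mul
      (fun z : Fin (m + 1) → ℝ => Zf (Real.exp (2 * x 0)) t w z)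
      (fun v : LIdx (m + 1) → ℝ => Wf (fun i => x i.succ) t (mulC w v))]
    unfold Zf Wf
    rw [z2, hcomp1.2, w2]
    rfl

end

end Pool.Agent.W61.WH
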