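import Pool.Agent.W61.WH.PHI2b

/-!
# Project WH, subtask PHI2, part c: exponents
-/

open MeasureTheory

namespace Pool.Agent.W61.WH

open Pool.Agent.W181.WH

theorem sum_LIdx {n : ℕ} (F : Fin n → Fin n → ℝ) :
    ∑ p : LIdx n, F p.1.1 p.1.2 = ∑ i, ∑ j, if j < i then F i j else 0 := by
  rw [← Fintype.sum_prod_type' (f := fun i j => if j < i then F i j else 0)]
  rw [← Finset.sum_filter]
  rw [← Finset.sum_subtype (p := fun p : Fin n × Fin n => p.2 < p.1)
    (f := fun p : Fin n × Fin n => F p.1 p.2)]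
  intro x
  simp

theorem sum_fst {n : ℕ} (f : Fin n → ℝ) :
    ∑ p : LIdx n, f p.1.1 = ∑ i : Fin n, ((i : ℕ) : ℝ) * f i := by
  rw [sum_LIdx (fun i _ => f i)]
  refine Finset.sum_congr rfl ?_
  intro i _
  rw [← Finset.sum_filter, Finset.sum_const, nsmul_eq_mul]
  congr 2
  have h : (Finset.univ.filter (fun j : Fin n => j < i)) = Finset.Iio i := by
    ext j
    simp
  rw [h, Fin.card_Iio]

theorem sum_snd {n : ℕ} (f : Fin n → ℝ) :
    ∑ p : LIdx n, f p.1.2 = ∑ i : Fin n, ((n : ℝ) - 1 - ((i : ℕ) : ℝ)) * f i := by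
  rw [sum_LIdx (fun _ j => f j), Finset.sum_comm]
  refine Finset.sum_congr rfl ?_
  intro i _
  rw [← Finset.sum_filter, Finset.sum_const, nsmul_eq_mul]
  congr 1
  have h : (Finset.univ.filter (fun j : Fin n => i < j)) = Finset.Ioi i := by
    ext j
    simp
  rw [h, Fin.card_Ioi]
  have hi := i.2
  rw [Nat.cast_sub (by omega), Nat.cast_sub (by omega)]
  simp

theorem sum_char {m : ℕ} (F : Fin (m + 1) → Fin (m + 1) → ℝ) :
    (∑ p : LIdx (m + 1), if (p.1.1 : ℕ) = (p.1.2 : ℕ) + 1 then F p.1.1 p.1.2 else 0) =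
      ∑ i : Fin m, F i.succ i.castSucc := by
  rw [sum_LIdx (fun i j => if (i : ℕ) = (j : ℕ) + 1 then F i j else 0), Fin.sum_univ_succ]
  have h0 : (∑ j : Fin (m + 1), if j < 0 then
      (if ((0 : Fin (m + 1)) : ℕ) = (j : ℕ) + 1 then F 0 j else 0) else 0) = 0 := by
    refine Finset.sum_eq_zero ?_
    intro j _
    rw [if_neg (by simp)]
  rw [h0, zero_add]
  refine Finset.sum_congr rfl ?_
  intro i _
  rw [Finset.sum_eq_single i.castSucc]
  · rw [if_pos (Fin.castSucc_lt_succ), if_pos (by simp)]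
  · intro j _ hj
    by_cases h1 : j < i.succ
    · rw [if_pos h1, if_neg]
      intro h2
      apply hj
      apply Fin.ext
      simp only [Fin.val_succ] at h2
      simp only [Fin.val_castSucc]
      omega
    · rw [if_neg h1]
  · intro h
    exact absurd (Finset.mem_univ _) h

/-- the exponent of `S_SCAL` -/
noncomputable def EE {m : ℕ} (μ : Fin m → ℂ) (x : Fin (m + 1) → ℝ) : ℝ :=
  (∑ p : LIdx (m + 1), (x p.1.1 - x p.1.2)) -
    ∑ k : Fin m, (μ k).re * ∑ i ∈ Finset.Ici k.succ, x i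

theorem EE_rev {m : ℕ} (μ : Fin (m + 1) → ℂ) (l : Fin (m + 1) → ℝ) :
    EE (tl μ) (fun i => l (Fin.rev i)) =
      ∑ i : Fin (m + 1), ((m : ℝ) - 2 * ((i : ℕ) : ℝ) -
        ∑ k : Fin (m + 1), if i < k then (μ k).re else 0) * l i := by
  unfold EE
  rw [Finset.sum_sub_distrib, sum_fst (fun i => l (Fin.rev i)), sum_snd (fun i => l (Fin.rev i))]
  have h1 : (∑ i : Fin (m + 1), ((i : ℕ) : ℝ) * l (Fin.rev i)) -
      (∑ i : Fin (m + 1), (((m + 1 : ℕ) : ℝ) - 1 - ((i : ℕ) : ℝ)) * l (Fin.rev i)) =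
      ∑ i : Fin (m + 1), ((m : ℝ) - 2 * ((i : ℕ) : ℝ)) * l i := by
    rw [← Finset.sum_sub_distrib, ← Equiv.sum_comp Fin.revPerm]
    refine Finset.sum_congr rfl ?_
    intro i _
    simp only [Fin.revPerm_apply, Fin.rev_rev, Fin.val_rev]
    have hi := i.2
    rw [Nat.cast_sub (by omega)]
    push_cast
    ring
  have h2 : (∑ k : Fin m, (tl μ k).re * ∑ i ∈ Finset.Ici k.succ, l (Fin.rev i)) =
      ∑ i : Fin (m + 1), (∑ k : Fin (m + 1), if i < k then (μ k).re else 0) * l i := by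
    have h3 : ∀ i : Fin (m + 1), (∑ k : Fin (m + 1), if i < k then (μ k).re else 0) * l i =
        ∑ k : Fin m, (μ k.succ).re * (if i < k.succ then l i else 0) := by
      intro i
      rw [Fin.sum_univ_succ, if_neg (by simp), zero_add, Finset.sum_mul]
      refine Finset.sum_congr rfl ?_
      intro k _
      split_ifs <;> simp
    simp only [h3]
    rw [Finset.sum_comm, ← Equiv.sum_comp Fin.revPerm]
    refine Finset.sum_congr rfl ?_
    intro k _
    have h4 : tl μ (Fin.revPerm k) = μ k.succ := by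
      unfold tl
      simp [Fin.revPerm_apply]
    rw [h4, ← Finset.mul_sum]
    congr 1
    have h5 : (∑ i ∈ Finset.Ici (Fin.revPerm k).succ, l (Fin.rev i)) =
        ∑ i : Fin (m + 1), if (Fin.rev k).succ ≤ i then l (Fin.rev i) else 0 := by
      rw [← Finset.sum_filter]
      refine Finset.sum_congr ?_ (fun _ _ => rfl)
      ext i
      simp [Fin.revPerm_apply]
    rw [h5, ← Equiv.sum_comp Fin.revPerm]
    refine Finset.sum_congr rfl ?_
    intro i _
    simp only [Fin.revPerm_apply, Fin.rev_rev]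
    have h6 : ((Fin.rev k).succ ≤ Fin.rev i) ↔ (i < k.succ) := by
      rw [Fin.le_def, Fin.lt_def, Fin.val_succ, Fin.val_succ, Fin.val_rev, Fin.val_rev]
      have h7 := i.2
      have h8 := k.2
      omega
    simp only [h6]
  rw [h1, h2, ← Finset.sum_sub_distrib]
  refine Finset.sum_congr rfl ?_
  intro i _
  ring

/-- the exponents of the last integral -/
noncomputable def ex {m : ℕ} (μ : Fin (m + 1) → ℂ) (i : Fin (m + 1)) : ℝ :=
  (∑ k : Fin (m + 1), if k ≤ i then ((μ k).re - 1) else 0) - 1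

theorem ex_gt {m : ℕ} (μ : Fin (m + 1) → ℂ) (hμ : ∀ k, 1 < (μ k).re) (i : Fin (m + 1)) :
    -1 < ex μ i := by
  unfold ex
  have h : 0 < ∑ k : Fin (m + 1), if k ≤ i then ((μ k).re - 1) else 0 := by
    refine Finset.sum_pos' ?_ ⟨i, Finset.mem_univ _, ?_⟩
    · intro k _
      split_ifs
      · linarith [hμ k]
      · exact le_refl _
    · rw [if_pos (le_refl _)]
      linarith [hμ i]
  linarith

theorem ex_eq {m : ℕ} (μ : Fin (m + 1) → ℂ) (i : Fin (m + 1)) :
    ex μ i = (∑ k, μ k).re - (∑ k : Fin (m + 1), if i < k then (μ k).re else 0) -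
      ((i : ℕ) : ℝ) - 2 := by
  unfold ex
  have h1 : (∑ k, μ k).re = (∑ k : Fin (m + 1), if k ≤ i then (μ k).re else 0) +
      ∑ k : Fin (m + 1), if i < k then (μ k).re else 0 := by
    rw [Complex.re_sum, ← Finset.sum_add_distrib]
    refine Finset.sum_congr rfl ?_
    intro k _
    by_cases h : k ≤ i
    · rw [if_pos h, if_neg (not_lt.mpr h), add_zero]
    · rw [if_neg h, if_pos (not_le.mp h), zero_add]
  have h2 : (∑ k : Fin (m + 1), if k ≤ i then ((μ k).re - 1) else 0) =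
      (∑ k : Fin (m + 1), if k ≤ i then (μ k).re else 0) - (((i : ℕ) : ℝ) + 1) := by
    have h3 : (∑ k : Fin (m + 1), if k ≤ i then (1 : ℝ) else 0) = ((i : ℕ) : ℝ) + 1 := by
      rw [← Finset.sum_filter, Finset.sum_const, nsmul_eq_mul, mul_one]
      have h : (Finset.univ.filter (fun j : Fin (m + 1) => j ≤ i)) = Finset.Iic i := by
        ext j
        simp
      rw [h, Fin.card_Iic]
      push_cast
      ring
    rw [← h3, ← Finset.sum_sub_distrib]
    refine Finset.sum_congr rfl ?_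
    intro k _
    split_ifs <;> simp
  rw [h1, h2]
  ring

end Pool.Agent.W61.WH
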