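import Pool.Agent.W61.WH.PHI2c

/-!
# Project WH, subtask PHI2, part d: the exponential formulas
-/

open MeasureTheory

namespace Pool.Agent.W61.WH

open Pool.Agent.W181.WH

theorem sqrt_exp (x : ℝ) : Real.sqrt (Real.exp (2 * x)) = Real.exp x := by
  have h : Real.exp (2 * x) = Real.exp x ^ 2 := by
    rw [← Real.exp_nat_mul]
    norm_num
  rw [h, Real.sqrt_sq (Real.exp_pos _).le]

theorem Z0_exp {m : ℕ} (x0 : ℝ) (l : Fin (m + 1) → ℝ) :
    Z0 (Real.exp (2 * x0)) (fun i => Real.exp (l i)) =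
      Real.exp (-(∑ i, l i) - ((m : ℝ) + 1) * x0) := by
  unfold Z0
  rw [sqrt_exp]
  have h : ∀ i : Fin (m + 1), (Real.exp (l i) * Real.exp x0)⁻¹ = Real.exp (-(l i + x0)) := by
    intro i
    rw [← Real.exp_add, Real.exp_neg]
  simp only [h]
  rw [← Real.exp_sum]
  congr 1
  rw [Finset.sum_neg_distrib, Finset.sum_add_distrib]
  simp
  ring

theorem P0_exp {m : ℕ} (x l : Fin m → ℝ) :
    (∏ p : LIdx m, (Real.exp (l p.1.1) * Real.exp (x p.1.2))⁻¹) =
      Real.exp (-(∑ i : Fin m, ((i : ℕ) : ℝ) * l i) -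
        ∑ i : Fin m, ((m : ℝ) - 1 - ((i : ℕ) : ℝ)) * x i) := by
  have h : ∀ p : LIdx m, (Real.exp (l p.1.1) * Real.exp (x p.1.2))⁻¹ =
      Real.exp (-(l p.1.1 + x p.1.2)) := by
    intro i
    rw [← Real.exp_add, Real.exp_neg]
  simp only [h]
  rw [← Real.exp_sum]
  congr 1
  rw [Finset.sum_neg_distrib, Finset.sum_add_distrib, sum_fst (fun i => l i),
    sum_snd (fun i => x i)]
  ring

theorem pow_exp {m : ℕ} (l : Fin m → ℝ) :
    (∏ i : Fin m, Real.exp (l i) ^ (2 * (i : ℕ))) =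
      Real.exp (∑ i : Fin m, 2 * ((i : ℕ) : ℝ) * l i) := by
  rw [Real.exp_sum]
  refine Finset.prod_congr rfl ?_
  intro i _
  rw [← Real.exp_nat_mul]
  push_cast
  rfl

theorem abs_formula {m : ℕ} (μ : Fin (m + 1) → ℂ) (x : Fin (m + 2) → ℝ) (l : Fin (m + 1) → ℝ) :
    (∏ i : Fin (m + 1), Real.exp (l i) ^ (2 * (i : ℕ))) *
      ((Z0 (Real.exp (2 * x 0)) (fun i => Real.exp (l i)) *
        W0 (fun i => x i.succ) (fun i => Real.exp (l i))) *
      ((∏ i : Fin (m + 1), Real.exp (l i) ^ ((∑ k, μ k).re - (m + 1))) *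
        Real.exp (EE (tl μ) (fun i => l (Fin.rev i))))) =
    Real.exp (-((m : ℝ) + 1) * x 0 - ∑ i : Fin (m + 1), ((m : ℝ) - ((i : ℕ) : ℝ)) * x i.succ) *
      ∏ i : Fin (m + 1), (Real.exp (l i) ^ (ex μ i) *
        Real.exp (-(Real.pi * Real.exp (2 * x i.succ)) * Real.exp (l i) ^ 2)) := by
  unfold W0
  rw [Z0_exp, pow_exp, P0_exp (fun i : Fin (m + 1) => x i.succ) l, EE_rev]
  have h1 : (∏ i : Fin (m + 1), Real.exp (l i) ^ ((∑ k, μ k).re - (m + 1))) =
      Real.exp (∑ i : Fin (m + 1), l i * ((∑ k, μ k).re - (m + 1))) := by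
    rw [Real.exp_sum]
    refine Finset.prod_congr rfl ?_
    intro i _
    rw [Real.exp_mul]
  have h2 : (∏ i : Fin (m + 1), (Real.exp (l i) ^ (ex μ i) *
        Real.exp (-(Real.pi * Real.exp (2 * x i.succ)) * Real.exp (l i) ^ 2))) =
      Real.exp (∑ i : Fin (m + 1), l i * ex μ i) *
        (∏ i : Fin (m + 1), Real.exp (-Real.pi * (Real.exp (l i) ^ 2 *
          Real.exp (2 * x i.succ)))) := by
    rw [Finset.prod_mul_distrib, Real.exp_sum]
    congr 1
    · refine Finset.prod_congr rfl ?_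
      intro i _
      rw [Real.exp_mul]
    · refine Finset.prod_congr rfl ?_
      intro i _
      congr 1
      ring
  rw [h1, h2]
  have h3 : ∀ a b c d e f g h : ℝ, a + b + c + d + e = g + h →
      Real.exp a * (Real.exp b * (f * Real.exp c) * (Real.exp d * Real.exp e)) =
        Real.exp g * (Real.exp h * f) := by
    intro a b c d e f g h hh
    have h4 : Real.exp a * (Real.exp b * (f * Real.exp c) * (Real.exp d * Real.exp e)) =
        (Real.exp a * Real.exp b * Real.exp c * Real.exp d * Real.exp e) * f := by ring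
    rw [h4, ← mul_assoc, ← Real.exp_add, ← Real.exp_add, ← Real.exp_add, ← Real.exp_add,
      ← Real.exp_add, hh]
  refine h3 _ _ _ _ _ _ _ _ ?_
  have h5 : (∑ i : Fin (m + 1), 2 * ((i : ℕ) : ℝ) * l i) - (∑ i, l i) -
      (∑ i : Fin (m + 1), ((i : ℕ) : ℝ) * l i) +
      (∑ i : Fin (m + 1), l i * ((∑ k, μ k).re - (m + 1))) +
      (∑ i : Fin (m + 1), ((m : ℝ) - 2 * ((i : ℕ) : ℝ) -
        ∑ k : Fin (m + 1), if i < k then (μ k).re else 0) * l i) =
      ∑ i : Fin (m + 1), l i * ex μ i := by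
    rw [← Finset.sum_sub_distrib, ← Finset.sum_sub_distrib, ← Finset.sum_add_distrib,
      ← Finset.sum_add_distrib]
    refine Finset.sum_congr rfl ?_
    intro i _
    rw [ex_eq]
    ring
  have h6 : (∑ i : Fin (m + 1), (((m + 1 : ℕ) : ℝ) - 1 - ((i : ℕ) : ℝ)) * x i.succ) =
      ∑ i : Fin (m + 1), ((m : ℝ) - ((i : ℕ) : ℝ)) * x i.succ := by
    refine Finset.sum_congr rfl ?_
    intro i _
    push_cast
    ring
  rw [← h5, h6]
  ring

theorem Zc_exp {m : ℕ} (x0 : ℝ) (l : Fin (m + 1) → ℝ) :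
    Zc (Real.exp (2 * x0)) (fun i => Real.exp (l i)) =
      Real.exp (-(∑ i, l i) - ((m : ℝ) + 1) * x0) *
        Real.exp (-Real.pi * Real.exp (2 * (-l 0 - x0))) := by
  have h := Z0_exp x0 l
  unfold Z0 at h
  unfold Zc
  rw [h]
  congr 2
  rw [← Real.exp_nat_mul, ← Real.exp_add, div_eq_mul_inv, ← Real.exp_neg]
  congr 2
  push_cast
  ring

theorem Wc_exp {m : ℕ} (x l : Fin (m + 1) → ℝ) :
    Wc x (fun i => Real.exp (l i)) =
      Real.exp (-Real.pi * ∑ i, Real.exp (2 * (l i + x i))) *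
      Real.exp (-(∑ i : Fin (m + 1), ((i : ℕ) : ℝ) * l i) -
        ∑ i : Fin (m + 1), ((m : ℝ) - ((i : ℕ) : ℝ)) * x i) *
      Real.exp (-Real.pi * ∑ i : Fin m, Real.exp (2 * (-l i.succ - x i.castSucc))) := by
  unfold Wc
  rw [Finset.prod_mul_distrib, P0_exp x l]
  have h1 : (∏ i, Real.exp (-Real.pi * (Real.exp (l i) ^ 2 * Real.exp (2 * x i)))) =
      Real.exp (-Real.pi * ∑ i, Real.exp (2 * (l i + x i))) := by
    rw [Finset.mul_sum, Real.exp_sum]
    refine Finset.prod_congr rfl ?_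
    intro i _
    congr 2
    rw [← Real.exp_nat_mul, ← Real.exp_add]
    congr 1
    push_cast
    ring
  have h2 : (∏ p : LIdx (m + 1), if (p.1.1 : ℕ) = (p.1.2 : ℕ) + 1 then
        Real.exp (-Real.pi / (Real.exp (l p.1.1) ^ 2 * Real.exp (2 * x p.1.2))) else 1) =
      Real.exp (-Real.pi * ∑ i : Fin m, Real.exp (2 * (-l i.succ - x i.castSucc))) := by
    rw [← sum_char (fun i j => Real.exp (2 * (-l i - x j))), Finset.mul_sum, Real.exp_sum]
    refine Finset.prod_congr rfl ?_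
    intro p _
    split_ifs
    · congr 1
      rw [← Real.exp_nat_mul, ← Real.exp_add, div_eq_mul_inv, ← Real.exp_neg]
      congr 2
      push_cast
      ring
    · simp
  have h6 : (∑ i : Fin (m + 1), (((m + 1 : ℕ) : ℝ) - 1 - ((i : ℕ) : ℝ)) * x i) =
      ∑ i : Fin (m + 1), ((m : ℝ) - ((i : ℕ) : ℝ)) * x i := by
    refine Finset.sum_congr rfl ?_
    intro i _
    push_cast
    ring
  rw [h1, h2, h6]
  ring

/-- the real factor of the last integral -/
theorem real_formula {m : ℕ} (x : Fin (m + 2) → ℝ) (l : Fin (m + 1) → ℝ) :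
    (∏ i : Fin (m + 1), Real.exp (l i)) * ((∏ i : Fin (m + 1), Real.exp (l i) ^ (2 * (i : ℕ))) *
      (Zc (Real.exp (2 * x 0)) (fun i => Real.exp (l i)) *
        Wc (fun i => x i.succ) (fun i => Real.exp (l i)))) =
    Real.exp (-∑ j : Fin (m + 2), ((m + 1 : ℝ) - (j : ℕ)) * x j) *
      (Real.exp (-Real.pi * ∑ i : Fin (m + 1),
        (Real.exp (2 * (x i.succ + l i)) + Real.exp (2 * (-l i - x i.castSucc)))) *
      Real.exp (∑ i : Fin (m + 1), ((i : ℕ) : ℝ) * l i)) := by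
  rw [Zc_exp, Wc_exp, pow_exp, ← Real.exp_sum]
  simp only [← Real.exp_add]
  congr 1
  rw [Fin.sum_univ_succ (f := fun j : Fin (m + 2) => ((m + 1 : ℝ) - (j : ℕ)) * x j)]
  rw [Finset.sum_add_distrib (f := fun i : Fin (m + 1) => Real.exp (2 * (x i.succ + l i)))]
  rw [Fin.sum_univ_succ (f := fun i : Fin (m + 1) => Real.exp (2 * (-l i - x i.castSucc)))]
  have h1 : (∑ i : Fin (m + 1), 2 * ((i : ℕ) : ℝ) * l i) =
      2 * ∑ i : Fin (m + 1), ((i : ℕ) : ℝ) * l i := by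
    rw [Finset.mul_sum]
    refine Finset.sum_congr rfl ?_
    intro i _
    ring
  have h2 : (∑ i : Fin (m + 1), ((m + 1 : ℝ) - ((i.succ : Fin (m + 2)) : ℕ)) * x i.succ) =
      ∑ i : Fin (m + 1), ((m : ℝ) - ((i : ℕ) : ℝ)) * x i.succ := by
    refine Finset.sum_congr rfl ?_
    intro i _
    rw [Fin.val_succ]
    push_cast
    ring
  have h3 : (∑ i : Fin (m + 1), Real.exp (2 * (l i + x i.succ))) =
      ∑ i : Fin (m + 1), Real.exp (2 * (x i.succ + l i)) := by
    refine Finset.sum_congr rfl ?_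
    intro i _
    rw [add_comm]
  have h4 : (∑ i : Fin m, Real.exp (2 * (-l i.succ - x i.castSucc.succ))) =
      ∑ i : Fin m, Real.exp (2 * (-l i.succ - x i.succ.castSucc)) := by
    refine Finset.sum_congr rfl ?_
    intro i _
    rw [Fin.succ_castSucc]
  rw [h1, h2, h3, h4]
  simp only [Fin.castSucc_zero, Fin.val_zero, Nat.cast_zero, sub_zero]
  ring

end Pool.Agent.W61.WH
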